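import Pool.Agent.Lib_MP_d5472a_co_ins.Main

set_option autoImplicit false

namespace Pool.Agent.Results.MP_d5472a_co.SymmetricLaman
open Pool.Agent.DihedralLaman

/-- Let a group Γ act on a finite Laman graph G by automorphisms (θ), let τ be a homomorphism
from Γ to O(2) whose image is C2v or C3v, and let the symmetric counts hold. Then a symmetric
realization of G is inc-regular if and only if it is isostatic, and, as soon as there is a
symmetric realization at all, the isostatic ones are dense in the space of all symmetric maps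
from the vertices to the plane. -/
theorem result {V : Type*} [Fintype V] (G : SimpleGraph V) {Γ : Type*} [Group Γ]
    (θ : Γ →* (G ≃g G)) (τ : Γ →* Matrix.orthogonalGroup (Fin 2) ℝ)
    (hτ : IsC2v (Set.range fun γ : Γ => (τ γ).1) ∨ IsC3v (Set.range fun γ : Γ => (τ γ).1))
    (hG : IsLaman G) (hc : SymmetricCounts θ τ) (p : V → Fin 2 → ℝ)
    (hp : IsRealization θ τ p) :
    (IsIncRegular θ τ p ↔ IsIsostatic G p) ∧
      ∀ q : V → Fin 2 → ℝ, IsSymmetric θ τ q → ∀ ε : ℝ, 0 < ε →
        ∃ p' : V → Fin 2 → ℝ, IsRealization θ τ p' ∧ IsIsostatic G p' ∧ dist p' q < ε :=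
  main G θ τ hτ hG hc p hp

end Pool.Agent.Results.MP_d5472a_co.SymmetricLaman
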